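import Pool.Agent.W649.ZL.BezMat

set_option autoImplicit false

universe u

open MvPolynomial

namespace Pool.Agent.Results.MP_95030e_al.BezoutInequality

/-- The kernel of right multiplication by the matrix `A` over the complex group ring on row vectors
of length `m` over `l2(G)`: all square-summable `x` with `x A = 0`. -/
def kernel {G : Type u} [Group G] {m l : ℕ} (A : Fin m → Fin l → (G →₀ ℂ)) :
    Set (lp (fun _ : Fin m × G => ℂ) 2) :=
  {x | ∀ (j : Fin l) (g : G),
    ∑ k : Fin m, ∑ h ∈ (A k j).support, x (k, g * h⁻¹) * A k j h = 0}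

open Classical in
/-- The von Neumann dimension of that kernel: the sum over `i` of one minus the square of the
distance from the basis vector at `(i, 1)` to the kernel, that is, the sum of the squared lengths
of the projections of these vectors to the kernel. -/
noncomputable def kerDim {G : Type u} [Group G] {m l : ℕ}
    (A : Fin m → Fin l → (G →₀ ℂ)) : ℝ :=
  ∑ i : Fin m, (1 - Metric.infDist
    (lp.single (E := fun _ : Fin m × G => ℂ) 2 (i, (1 : G)) (1 : ℂ)) (kernel A) ^ 2)

/-- The value at the point `p` of the plane of an `n × n` matrix over the group ring of `G` with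
coefficients in the polynomial ring `ℂ[s, t]`. -/
noncomputable def value {G : Type u} {n : ℕ}
    (P : Fin n → Fin n → (G →₀ MvPolynomial (Fin 2) ℂ)) (p : Fin 2 → ℂ) :
    Fin n → Fin n → (G →₀ ℂ) :=
  fun k l => (P k l).mapRange (eval p) (map_zero _)

/-- The matrix `B + s diag(x) + t diag(y)` for `p = (s, t)`. -/
noncomputable def shifted {G : Type u} {n : ℕ} (B : Fin n → Fin n → (G →₀ ℂ))
    (x y : Fin n → G) (p : Fin 2 → ℂ) : Fin n → Fin n → (G →₀ ℂ) :=
  fun k l => B k l
    + if k = l then Finsupp.single (x k) (p 0) + Finsupp.single (y k) (p 1) else 0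

theorem kerDim_eq {G : Type u} [Group G] {n : ℕ} (A : Fin n → Fin n → (G →₀ ℂ)) :
    kerDim A = W649.ZL.kerDimM A := by
  unfold kerDim W649.ZL.kerDimM
  congr!

theorem shifted_eq {G : Type u} [Group G] {n : ℕ} (B : Fin n → Fin n → (G →₀ ℂ))
    (x y : Fin n → G) (p : Fin 2 → ℂ) :
    shifted B x y p = W649.ZL.atP (W649.ZL.shiftP B x y) p := by
  classical
  funext k l
  ext g
  unfold shifted W649.ZL.atP
  rw [Finsupp.mapRange_apply, W649.ZL.shiftP_apply, Finsupp.add_apply]
  by_cases h : k = l
  · rw [if_pos h, Finsupp.add_apply, Finsupp.single_apply, Finsupp.single_apply, map_add, map_add,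
      eval_C, add_assoc]
    congr 1
    congr 1
    · by_cases h1 : x k = g
      · rw [if_pos h1, if_pos ⟨h, h1.symm⟩, eval_X]
      · rw [if_neg h1, if_neg (fun hh => h1 hh.2.symm), map_zero]
    · by_cases h1 : y k = g
      · rw [if_pos h1, if_pos ⟨h, h1.symm⟩, eval_X]
      · rw [if_neg h1, if_neg (fun hh => h1 hh.2.symm), map_zero]
  · rw [if_neg h]
    simp [h]

/-- **Bezout inequality for `ℓ²`-kernels.** Let `G` be any group.

(1) Let `P` be an `n × n` matrix over the group ring of `G` with coefficients in `ℂ[s, t]` of total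
degree at most `δ`, and `F` a nonzero polynomial in `ℂ[s, t]` such that on each irreducible
component of the curve `F = 0` there is a point `y` at which the kernel of `P(y)` has dimension
`0`. Then for all points `p` of a finite set `S` at which `F` vanishes to order at least `m p`:
`∑ m p * dim ker P(p) ≤ δ * n * deg F`.

(2) If every irreducible curve contains a point `y` at which the kernel of `P(y)` has dimension
`0`, then `∑ (dim ker P(p)) ^ 2 ≤ (δ * n) ^ 2`, the sum over any finite set of points `p`.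

(3) Let `B` be an `n × n` matrix over the complex group ring and let `x k`, `y k` (for `k < n`) be
elements of `G` such that `x k * (y k)⁻¹` has infinite order. Then the kernel of
`B + s diag(x) + t diag(y)` has dimension `0` for all but countably many `(s, t)`, and the sum of
`(dim ker (B + s diag(x) + t diag(y))) ^ 2` over any finite set of pairs `(s, t)` is at most
`n ^ 2`. -/
theorem result {G : Type u} [Group G] {n : ℕ} :
    (∀ (P : Fin n → Fin n → (G →₀ MvPolynomial (Fin 2) ℂ)) (δ : ℕ),
      (∀ k l g, (P k l g).totalDegree ≤ δ) →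
      (∀ F : MvPolynomial (Fin 2) ℂ, F ≠ 0 →
        (∀ f : MvPolynomial (Fin 2) ℂ, Irreducible f → f ∣ F →
          ∃ y, eval y f = 0 ∧ kerDim (value P y) = 0) →
        ∀ (S : Finset (Fin 2 → ℂ)) (m : (Fin 2 → ℂ) → ℕ),
          (∀ p ∈ S, F ∈ (RingHom.ker (eval p)) ^ (m p)) →
          ∑ p ∈ S, (m p : ℝ) * kerDim (value P p) ≤ δ * n * F.totalDegree) ∧
      ((∀ f : MvPolynomial (Fin 2) ℂ, Irreducible f →
          ∃ y, eval y f = 0 ∧ kerDim (value P y) = 0) →
        ∀ S : Finset (Fin 2 → ℂ), ∑ p ∈ S, kerDim (value P p) ^ 2 ≤ ((δ : ℝ) * n) ^ 2)) ∧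
    (∀ (B : Fin n → Fin n → (G →₀ ℂ)) (x y : Fin n → G),
      (∀ k, ∀ j : ℕ, 0 < j → (x k * (y k)⁻¹) ^ j ≠ 1) →
      {p : Fin 2 → ℂ | kerDim (shifted B x y p) ≠ 0}.Countable ∧
      ∀ S : Finset (Fin 2 → ℂ), ∑ p ∈ S, kerDim (shifted B x y p) ^ 2 ≤ (n : ℝ) ^ 2) := by
  refine ⟨fun P δ hP => ⟨fun F hF hgood S m hm => ?_, fun hgood S => ?_⟩, fun B x y hxy => ?_⟩
  · have h := W649.ZL.bezout_mat P δ hP F hF (fun f hf hfF => by
      obtain ⟨y, hy1, hy2⟩ := hgood f hf hfF
      exact ⟨y, hy1, by rw [← kerDim_eq]; exact hy2⟩) S m hm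
    rw [Fintype.card_fin] at h
    simp only [kerDim_eq]
    exact h
  · have h := W649.ZL.squares_mat P δ hP (fun f hf => by
      obtain ⟨y, hy1, hy2⟩ := hgood f hf
      exact ⟨y, hy1, by rw [← kerDim_eq]; exact hy2⟩) S
    rw [Fintype.card_fin] at h
    simp only [kerDim_eq]
    exact h
  · have hinf : ∀ k, ¬ IsOfFinOrder (x k * (y k)⁻¹) := by
      intro k hk
      obtain ⟨j, hj, hj'⟩ := isOfFinOrder_iff_pow_eq_one.1 hk
      exact hxy k j hj hj'
    simp only [kerDim_eq, shifted_eq]
    refine ⟨W649.ZL.shift_countable B x y hinf, fun S => ?_⟩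
    have h := W649.ZL.squares_shift B x y hinf S
    rw [Fintype.card_fin] at h
    exact h

end Pool.Agent.Results.MP_95030e_al.BezoutInequality
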