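import Pool.Agent.W649.ZL.Mat

set_option autoImplicit false

universe u

namespace Pool.Agent.Results.MP_95030e_al.SupremumAttained

/-- The kernel of right multiplication by the matrix `A` over the complex group ring on row vectors
of length `m` over `l2(G)`: all square-summable `x` with `x A = 0`. -/
def kernel {G : Type u} [Group G] {m l : ℕ} (A : Matrix (Fin m) (Fin l) (G →₀ ℂ)) :
    Set (lp (fun _ : Fin m × G => ℂ) 2) :=
  {x | ∀ (j : Fin l) (g : G),
    ∑ k : Fin m, ∑ h ∈ (A k j).support, x (k, g * h⁻¹) * A k j h = 0}

open Classical in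
/-- The von Neumann dimension of that kernel: the sum over `i` of one minus the square of the
distance from the basis vector at `(i, 1)` to the kernel, that is, the sum of the squared lengths
of the projections of these vectors to the kernel. -/
noncomputable def kerDim {G : Type u} [Group G] {m l : ℕ}
    (A : Matrix (Fin m) (Fin l) (G →₀ ℂ)) : ℝ :=
  ∑ i : Fin m, (1 - Metric.infDist
    (lp.single (E := fun _ : Fin m × G => ℂ) 2 (i, (1 : G)) (1 : ℂ)) (kernel A) ^ 2)

/-- Let `G` be any group, `T` a finite subset of `G`, and `S` any nonempty set of `m × l` matrices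
over the complex group ring all of whose entries are supported in `T`. Then the von Neumann
dimensions of the kernels of the members of `S` have a maximum. Equivalently, for fixed `T`, `m`,
`l` these kernel dimensions satisfy the ascending chain condition: they do not accumulate from
below at any real number. -/
theorem result {G : Type u} [Group G] {m l : ℕ} (T : Finset G)
    (S : Set (Matrix (Fin m) (Fin l) (G →₀ ℂ))) (hne : S.Nonempty)
    (hT : ∀ A ∈ S, ∀ i j, (A i j).support ⊆ T) :
    ∃ A ∈ S, ∀ B ∈ S, kerDim B ≤ kerDim A := by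
  classical
  have hkd : ∀ A ∈ S, kerDim A = W649.ZL.kd (W649.ZL.famR (fun i : T × Fin m × Fin l => (i.1 : G))
      (fun i => i.2.1) (fun i => i.2.2)) (W649.ZL.coefT T A) := by
    intro A hA
    rw [← W649.ZL.kerDimM_eq, W649.ZL.matM_coefT T A (hT A hA)]
    unfold kerDim W649.ZL.kerDimM
    congr!
  obtain ⟨p, ⟨A, hA, rfl⟩, hmax⟩ := W649.ZL.acc
    (W649.ZL.famR (fun i : T × Fin m × Fin l => (i.1 : G)) (fun i => i.2.1) (fun i => i.2.2))
    (W649.ZL.famR_eqv _ _ _) (W649.ZL.coefT T '' S) (hne.image _)
  refine ⟨A, hA, fun B hB => ?_⟩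
  rw [hkd A hA, hkd B hB]
  exact hmax _ ⟨B, hB, rfl⟩

end Pool.Agent.Results.MP_95030e_al.SupremumAttained
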