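import Pool.Agent.W656.VA9
import Pool.Agent.W656.VB6

set_option autoImplicit false

noncomputable section

namespace Pool.Agent.Results.MP_95030e_al.TorsionFreeBaseChange

/-- The kernel of right multiplication by the matrix `A` on `ℓ²(G)^m`. -/
def kernel {G : Type} [Group G] {m n : ℕ} (A : Matrix (Fin m) (Fin n) (G →₀ ℂ)) :
    Set (lp (fun _ : Fin m × G => ℂ) 2) :=
  {x | ∀ (j : Fin n) (g : G),
    ∑ i : Fin m, (A i j).sum (fun h c => x (i, g * h⁻¹) * c) = 0}

open Classical in
/-- The von Neumann dimension of this kernel: the sum over `i` of one minus the squared distance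
from the basis vector at `(i, 1)` to the kernel, that is, the trace of the projection onto the
kernel. -/
def kerDim {G : Type} [Group G] {m n : ℕ} (A : Matrix (Fin m) (Fin n) (G →₀ ℂ)) : ℝ :=
  ∑ i : Fin m, (1 - (Metric.infDist
    (lp.single 2 (i, (1 : G)) (1 : ℂ) : lp (fun _ : Fin m × G => ℂ) 2) (kernel A)) ^ 2)

/-- A class of torsion-free groups closed under direct products, direct products of sequences and
free products with free groups of finite rank. -/
structure Good (C : (G : Type) → [Group G] → Prop) : Prop where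
  torsionFree : ∀ (G : Type) [Group G], C G → ∀ g : G, ∀ n : ℕ, 0 < n → g ^ n = 1 → g = 1
  prod : ∀ (G H : Type) [Group G] [Group H], C G → C H → C (G × H)
  pi : ∀ (G : ℕ → Type) [∀ i, Group (G i)], (∀ i, C (G i)) → C (∀ i, G i)
  free : ∀ (G : Type) [Group G] (m : ℕ), C G → C (Monoid.Coprod G (FreeGroup (Fin m)))

/-- **The Atiyah conjecture for torsion-free groups: base change and all or nothing.** The class
of all torsion-free groups is a class as in `Good`. For each class `C` as in `Good` and each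
subring `R` of `ℂ` (for example the rational numbers, or the integers) the following are
equivalent.

1. (strong Atiyah conjecture for `C` over `ℂ`) For all `G` in `C` and all matrices `A` over `ℂ[G]`
   the number `dim ker A` is an integer.
2. (strong Atiyah conjecture for `C` over `R`) The same for the matrices `A` over `R[G]`.
3. (weak Atiyah conjecture for `C` over `R`) For each `G` in `C` there is `k > 0` such that
   `k · dim ker A` is an integer for all `A` over `R[G]`.
4. For each `G` in `C` the kernel dimensions of matrices over `R[G]` are not dense in `[0, ∞)`: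
   they avoid an interval `(a, b)`, `0 ≤ a < b`, which may depend on `G`.
5. For some `ε > 0` no kernel dimension of a matrix over `R[G]`, `G` in `C`, lies in `(0, ε)`. -/
theorem result :
    Good (fun G _ => ∀ g : G, ∀ n : ℕ, 0 < n → g ^ n = 1 → g = 1) ∧
    ∀ (C : (G : Type) → [Group G] → Prop), Good C → ∀ R : Subring ℂ, List.TFAE [
      ∀ (G : Type) [Group G], C G →
        ∀ (m n : ℕ) (A : Matrix (Fin m) (Fin n) (G →₀ ℂ)),
          ∃ z : ℤ, kerDim A = z,
      ∀ (G : Type) [Group G], C G →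
        ∀ (m n : ℕ) (A : Matrix (Fin m) (Fin n) (G →₀ ℂ)), (∀ i j g, A i j g ∈ R) →
          ∃ z : ℤ, kerDim A = z,
      ∀ (G : Type) [Group G], C G → ∃ k : ℕ, 0 < k ∧
        ∀ (m n : ℕ) (A : Matrix (Fin m) (Fin n) (G →₀ ℂ)), (∀ i j g, A i j g ∈ R) →
          ∃ z : ℤ, (k : ℝ) * kerDim A = z,
      ∀ (G : Type) [Group G], C G → ∃ a b : ℝ, 0 ≤ a ∧ a < b ∧
        ∀ (m n : ℕ) (A : Matrix (Fin m) (Fin n) (G →₀ ℂ)), (∀ i j g, A i j g ∈ R) →
          ¬ (a < kerDim A ∧ kerDim A < b),
      ∃ ε : ℝ, 0 < ε ∧ ∀ (G : Type) [Group G], C G →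
        ∀ (m n : ℕ) (A : Matrix (Fin m) (Fin n) (G →₀ ℂ)), (∀ i j g, A i j g ∈ R) →
          ¬ (0 < kerDim A ∧ kerDim A < ε)] := by
  refine ⟨⟨fun G _ h => h, ?_, ?_, ?_⟩, ?_⟩
  · rintro G H _ _ hG hH ⟨a, b⟩ n hn h
    have h1 := congrArg Prod.fst h
    have h2 := congrArg Prod.snd h
    exact Prod.ext (hG a n hn h1) (hH b n hn h2)
  · intro G _ hG g n hn h
    funext i
    exact hG i (g i) n hn (congrFun h i)
  · intro G _ m hG g n hn h
    have h1 := (W656.VA.isLcm_one hG).coprod m
    have h2 : Finite (Subgroup.zpowers g) := by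
      have : IsOfFinOrder g := isOfFinOrder_iff_pow_eq_one.2 ⟨n, hn, h⟩
      exact Nat.finite_of_card_ne_zero (by rw [Nat.card_zpowers]; exact this.orderOf_pos.ne')
    have h3 := Nat.dvd_one.1 (h1.2.1 _ h2)
    rw [Nat.card_zpowers] at h3
    exact orderOf_eq_one_iff.1 h3
  intro C hC R
  have htf := hC.torsionFree
  have hone : ∀ (G : Type) [Group G], C G → ∀ d : ℕ, W656.VA.IsLcm G d → d = 1 := by
    intro G _ hG d hd
    exact Nat.dvd_one.1 (hd.2.2 1 (fun K hK => (W656.VA.isLcm_one (htf G hG)).2.1 K hK))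
  tfae_have 1 → 2 := fun h G _ hG m n A _ => h G hG m n A
  tfae_have 2 → 3 := by
    intro h G _ hG
    refine ⟨1, one_pos, fun m n A hA => ?_⟩
    obtain ⟨z, hz⟩ := h G hG m n A hA
    exact ⟨z, by rw [hz]; simp⟩
  tfae_have 3 → 4 := by
    intro h G _ hG
    obtain ⟨k, hk, h1⟩ := h G hG
    have hk0 : (0 : ℝ) < k := by exact_mod_cast hk
    refine ⟨0, 1 / k, le_rfl, by positivity, ?_⟩
    rintro m n A hA ⟨h2, h3⟩
    obtain ⟨z, hz⟩ := h1 m n A hA
    rw [lt_div_iff₀ hk0, mul_comm] at h3
    have h4 := mul_pos hk0 h2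
    rw [hz] at h3 h4
    have h5 : 0 < z := by exact_mod_cast h4
    have h6 : z < 1 := by exact_mod_cast h3
    omega
  tfae_have 4 → 1 := by
    intro h G _ hG m n A
    have hR : ∀ (G : Type) [Group G], C G → ∀ d : ℕ, W656.VA.IsLcm G d → ∀ v : ℝ,
        W656.VA.Val R G v → ∃ z : ℤ, (d : ℝ) * v = z := by
      intro G _ hG d hd v hv
      rw [hone G hG d hd, Nat.cast_one, one_mul]
      refine W656.VA.single_val C htf hC.prod hC.pi hC.free R ?_ G hG v hv
      intro H _ hH
      obtain ⟨a, b, ha, hab, h1⟩ := h H hH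
      refine ⟨a, b, ha, hab, fun v hv => ?_⟩
      obtain ⟨m', n', A', hA', rfl⟩ := W656.VA.exists_kerDim hv
      exact h1 m' n' A' hA'
    obtain ⟨z, hz⟩ := W656.VA.base_change C hC.prod hC.free R hR ⊤ G hG 1
      (W656.VA.isLcm_one (htf G hG)) _
      (W656.VA.val_kerDim A (fun _ _ _ => Subring.mem_top _))
    rw [Nat.cast_one, one_mul] at hz
    exact ⟨z, hz⟩
  tfae_have 2 → 5 := by
    intro h
    refine ⟨1, one_pos, ?_⟩
    rintro G _ hG m n A hA ⟨h1, h2⟩
    obtain ⟨z, hz⟩ := h G hG m n A hA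
    rw [hz] at h1 h2
    have h3 : 0 < z := by exact_mod_cast h1
    have h4 : z < 1 := by exact_mod_cast h2
    omega
  tfae_have 5 → 4 := by
    rintro ⟨ε, hε, h⟩ G _ hG
    exact ⟨0, ε, le_rfl, hε, h G hG⟩
  tfae_finish

end Pool.Agent.Results.MP_95030e_al.TorsionFreeBaseChange
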